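import Mathlib

/-!
# B-groups, in the words of the problem
-/

set_option autoImplicit false

namespace Pool.Agent.BGroups

variable {Ω : Type}

/-- The permutation group `G` is primitive: the only `G`-invariant equivalence relations are
equality and the universal relation. -/
def IsPrimitive (G : Subgroup (Equiv.Perm Ω)) : Prop :=
  ∀ r : Setoid Ω, (∀ g ∈ G, ∀ x y, r x y → r (g x) (g y)) → r = ⊥ ∨ r = ⊤

/-- `G` is doubly transitive: transitive on ordered pairs of distinct points. -/
def IsDoublyTransitive (G : Subgroup (Equiv.Perm Ω)) : Prop :=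
  ∀ a b c d : Ω, a ≠ b → c ≠ d → ∃ g ∈ G, g a = c ∧ g b = d

/-- `Y` is regular: transitive with trivial point stabilisers. -/
def IsRegular (Y : Subgroup (Equiv.Perm Ω)) : Prop :=
  (∀ a b : Ω, ∃ g ∈ Y, g a = b) ∧ ∀ g ∈ Y, ∀ a : Ω, g a = a → g = 1

/-- `X` is a B-group: every primitive permutation group that contains a regular subgroup
isomorphic to `X` is doubly transitive. -/
def IsBGroup (X : Type) [Group X] : Prop :=
  ∀ (Ω : Type) (G Y : Subgroup (Equiv.Perm Ω)), IsPrimitive G → Y ≤ G → IsRegular Y →
    Nonempty (Y ≃* X) → IsDoublyTransitive G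

end Pool.Agent.BGroups
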