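import Pool.Agent.Lib.MP_291637_al.Setup

/-!
# The quasicyclic p-group, p an odd prime
-/

set_option autoImplicit false

namespace Pool.Agent.BG.PP

open Pool.Agent.BG

/-- The circle `ℚ/ℤ`. -/
abbrev Circ : Type := AddCircle (1 : ℚ)

/-- The quasicyclic (Prüfer) `p`-group: the elements of `ℚ/ℤ` of `p`-power order. -/
def Quasi (p : ℕ) : AddSubgroup Circ where
  carrier := {x | ∃ n : ℕ, p ^ n • x = 0}
  add_mem' {x y} hx hy := by
    obtain ⟨m, hm⟩ := hx
    obtain ⟨n, hn⟩ := hy
    refine ⟨m + n, ?_⟩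
    rw [nsmul_add, pow_add, mul_comm, mul_nsmul', hm, mul_comm, mul_nsmul', hn]
    simp
  zero_mem' := ⟨0, by simp⟩
  neg_mem' {x} hx := by
    obtain ⟨m, hm⟩ := hx
    exact ⟨m, by rw [smul_neg, hm, neg_zero]⟩

variable {p : ℕ} [hp : Fact p.Prime]

theorem exists_order (x : Quasi p) : ∃ n : ℕ, addOrderOf x = p ^ n := by
  obtain ⟨x, n, hn⟩ := x
  have h1 : (p ^ n) • (⟨x, n, hn⟩ : Quasi p) = 0 := Subtype.ext hn
  have h2 := addOrderOf_dvd_of_nsmul_eq_zero h1
  obtain ⟨k, _, hk⟩ := (Nat.dvd_prime_pow hp.out).1 h2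
  exact ⟨k, hk⟩

theorem mem_zmultiples_of_le {x y : Quasi p} (h : addOrderOf x ≤ addOrderOf y) :
    x ∈ AddSubgroup.zmultiples y := by
  have hp1 : 1 < p := hp.out.one_lt
  have hp0 : 0 < p := hp.out.pos
  obtain ⟨m, hm⟩ := exists_order x
  obtain ⟨n, hn⟩ := exists_order y
  have hmn : m ≤ n := by
    rw [hm, hn] at h
    exact (Nat.pow_le_pow_iff_right hp1).1 h
  have hpos : 0 < p ^ n := by positivity
  set T : Set Circ := {u | (p ^ n) • u = 0} with hT
  have hTfin : T.Finite := AddCircle.finite_torsion (1 : ℚ) hpos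
  have hTcard : T.encard ≤ (p ^ n : ℕ) := by
    refine AddCircle.card_torsion_le_of_isSMulRegular (1 : ℚ) (p ^ n) hpos.ne' ?_
    refine .of_right_eq_zero_of_smul fun q hq ↦ ?_
    have : ((p ^ n : ℕ) : ℚ) ≠ 0 := by exact_mod_cast hpos.ne'
    rw [nsmul_eq_mul] at hq
    exact (mul_eq_zero.1 hq).resolve_left this
  have hsub : (AddSubgroup.zmultiples (y : Circ) : Set Circ) ⊆ T := by
    rintro u ⟨k, rfl⟩
    change p ^ n • (k • (y : Circ)) = 0
    rw [smul_comm]
    have : (p ^ n) • (y : Circ) = 0 := by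
      have h1 : (p ^ n) • y = 0 := by rw [← hn]; exact addOrderOf_nsmul_eq_zero y
      exact congrArg Subtype.val h1
    rw [this, smul_zero]
  have hyord : addOrderOf (y : Circ) = p ^ n := by
    rw [← hn]; exact AddSubgroup.addOrderOf_coe y
  have hcard : (AddSubgroup.zmultiples (y : Circ) : Set Circ).ncard = p ^ n := by
    rw [← hyord, ← Nat.card_zmultiples]; rfl
  have hTn : T.ncard ≤ p ^ n := by
    rw [← hTfin.cast_ncard_eq] at hTcard
    exact_mod_cast hTcard
  have heq := Set.eq_of_subset_of_ncard_le hsub (by rw [hcard]; exact hTn) hTfin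
  have hx : (x : Circ) ∈ T := by
    change (p ^ n) • (x : Circ) = 0
    have h1 : (p ^ n) • x = 0 := by
      obtain ⟨k, rfl⟩ := Nat.exists_eq_add_of_le hmn
      rw [pow_add, mul_nsmul, ← hm, addOrderOf_nsmul_eq_zero, nsmul_zero]
    exact congrArg Subtype.val h1
  rw [← heq] at hx
  obtain ⟨k, hk⟩ := hx
  exact ⟨k, Subtype.ext hk⟩

theorem gen_mem (n : ℕ) : (((1 : ℚ) / ((p ^ n : ℕ) : ℚ) : ℚ) : Circ) ∈ Quasi p := by
  have hp0 : 0 < p := hp.out.pos
  refine ⟨n, ?_⟩
  have h := AddCircle.addOrderOf_period_div (p := (1 : ℚ)) (n := p ^ n) (by positivity)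
  have h2 := addOrderOf_nsmul_eq_zero (((1 : ℚ) / ((p ^ n : ℕ) : ℚ) : ℚ) : Circ)
  rwa [h] at h2

theorem gen_order (n : ℕ) :
    addOrderOf (⟨_, gen_mem n⟩ : Quasi p) = p ^ n := by
  have hp0 : 0 < p := hp.out.pos
  rw [← AddSubgroup.addOrderOf_coe]
  exact AddCircle.addOrderOf_period_div (p := (1 : ℚ)) (n := p ^ n) (by positivity)

theorem pruf (hodd : Odd p) : Pruf (Quasi p) where
  inf := by
    refine Infinite.of_injective (fun n : ℕ => (⟨_, gen_mem n⟩ : Quasi p)) ?_
    intro m n h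
    have := congrArg addOrderOf h
    simp only [gen_order] at this
    exact Nat.pow_right_injective hp.out.two_le this
  cnt := by
    have : Countable Circ :=
      Function.Surjective.countable (QuotientAddGroup.mk_surjective (s := AddSubgroup.zmultiples (1 : ℚ)))
    infer_instance
  sub M := by
    by_cases h : M = ⊤
    · exact Or.inl h
    right
    obtain ⟨x, hx⟩ : ∃ x, x ∉ M := by
      by_contra hcon
      push Not at hcon
      exact h (by rw [eq_top_iff]; intro x _; exact hcon x)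
    have hM : M ≤ AddSubgroup.zmultiples x := by
      intro y hy
      apply mem_zmultiples_of_le
      by_contra hlt
      push Not at hlt
      apply hx
      have := mem_zmultiples_of_le hlt.le
      rw [AddSubgroup.mem_zmultiples_iff] at this
      obtain ⟨k, rfl⟩ := this
      exact M.zsmul_mem hy k
    obtain ⟨n, hn⟩ := exists_order x
    have hp0 : 0 < p := hp.out.pos
    have hfin : Finite (AddSubgroup.zmultiples x) := by
      refine (finite_zmultiples.2 ?_).to_subtype
      rw [← addOrderOf_pos_iff, hn]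
      positivity
    refine ⟨Finite.of_injective _ (AddSubgroup.inclusion_injective hM), ?_⟩
    have hdvd := AddSubgroup.card_dvd_of_le hM
    rw [Nat.card_zmultiples, hn] at hdvd
    exact Odd.of_dvd_nat (Odd.pow hodd) hdvd
  tot M N := by
    by_contra hcon
    push Not at hcon
    obtain ⟨h1, h2⟩ := hcon
    obtain ⟨x, hx, hx'⟩ := Set.not_subset.1 h1
    obtain ⟨y, hy, hy'⟩ := Set.not_subset.1 h2
    rcases le_total (addOrderOf x) (addOrderOf y) with h | h
    · obtain ⟨k, hk⟩ := AddSubgroup.mem_zmultiples_iff.1 (mem_zmultiples_of_le h)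
      exact hx' (by rw [← hk]; exact N.zsmul_mem hy k)
    · obtain ⟨k, hk⟩ := AddSubgroup.mem_zmultiples_iff.1 (mem_zmultiples_of_le h)
      exact hy' (by rw [← hk]; exact M.zsmul_mem hx k)
  tors x := by
    obtain ⟨x, n, hn⟩ := x
    exact ⟨p ^ n, Odd.pow hodd, Subtype.ext hn⟩

end Pool.Agent.BG.PP
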