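import Pool.Agent.Lib.MP_291637_al.MainVF
import Pool.Agent.Lib.MP_291637_al_h3.VF
import Pool.Agent.Lib.MP_291637_al_h16.Defs
import Pool.Agent.Lib.MP_291637_al_h16.PruferP

/-!
# The generalised dicyclic groups over quasicyclic groups are B-groups
-/

set_option autoImplicit false

open scoped Pointwise

namespace Pool.Agent.BG.PP

open Pool.Agent.BG Pool.Agent.BGroups

/-- A primitive group (invariant equivalence relations) with a transitive subgroup is preprimitive. -/
theorem isPreprimitive {Ω : Type} {G Y : Subgroup (Equiv.Perm Ω)} (hG : IsPrimitive G)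
    (hY : Y ≤ G) (hreg : IsRegular Y) : MulAction.IsPreprimitive G Ω where
  exists_smul_eq a b := by
    obtain ⟨g, hg, h⟩ := hreg.1 a b
    exact ⟨⟨g, hY hg⟩, h⟩
  isTrivialBlock_of_isBlock := by
    intro B hB
    let r : Setoid Ω :=
      { r := fun x y => ∀ g : G, x ∈ g • B ↔ y ∈ g • B
        iseqv := ⟨fun _ _ => Iff.rfl, fun h g => (h g).symm, fun h k g => (h g).trans (k g)⟩ }
    have hinv : ∀ g ∈ G, ∀ x y, r x y → r (g x) (g y) := by
      intro g hg x y hxy k
      have h := hxy (⟨g, hg⟩⁻¹ * k)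
      rw [mul_smul, Set.mem_inv_smul_set_iff, Set.mem_inv_smul_set_iff] at h
      exact h
    rcases hG r hinv with h | h
    · left
      intro x hx y hy
      have hxy : r x y := by
        intro g
        by_cases hg : g • B = (1 : G) • B
        · rw [hg, one_smul]
          exact iff_of_true hx hy
        · have hd := hB hg
          rw [one_smul] at hd
          exact iff_of_false (fun h1 => Set.disjoint_left.1 hd h1 hx)
            (fun h1 => Set.disjoint_left.1 hd h1 hy)
      rw [h] at hxy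
      exact hxy
    · by_cases hne : B.Nonempty
      · right
        obtain ⟨x, hx⟩ := hne
        rw [Set.eq_univ_iff_forall]
        intro y
        have hxy : r x y := by
          rw [h]
          trivial
        have h1 := hxy 1
        rw [one_smul] at h1
        exact h1.1 hx
      · left
        rw [Set.not_nonempty_iff_eq_empty.1 hne]
        exact Set.subsingleton_empty

/-- The generalised dicyclic group over a group with the properties `Pruf` is a B-group. -/
theorem isBGroup_dic {P : Type} [AddCommGroup P] [Pruf P] : IsBGroup (Dic P) := by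
  rintro Ω G Y hG hY hreg ⟨e⟩ a b c d hab hcd
  have hpre := isPreprimitive hG hY hreg
  have hreg' : ∀ ω ω' : Ω, ∃! h : Y, h • ω = ω' := by
    intro ω ω'
    obtain ⟨g, hg, h⟩ := hreg.1 ω ω'
    refine ⟨⟨g, hg⟩, h, ?_⟩
    rintro ⟨k, hk⟩ hk'
    have hk'' : k ω = ω' := hk'
    have h1 : (g⁻¹ * k) = 1 := by
      refine hreg.2 _ (Y.mul_mem (Y.inv_mem hg) hk) ω ?_
      rw [Equiv.Perm.mul_apply, hk'', ← h]
      exact g.symm_apply_apply ω
    exact Subtype.ext (inv_mul_eq_one.1 h1).symm
  have h2 : MulAction.IsMultiplyPretransitive G Ω 2 := by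
    by_contra hnot
    obtain ⟨S⟩ := exists_sit hpre hY e hreg' hnot
    exact S.false_of_vf (Pool.Agent.BG.Cert.vf S.symm)
  rw [MulAction.is_two_pretransitive_iff] at h2
  obtain ⟨g, h3, h4⟩ := h2 hab hcd
  exact ⟨g.1, g.2, h3, h4⟩

theorem pow_f {P : Type} [AddCommGroup P] (a : AA P) (n : ℕ) :
    (⟨a, false⟩ : Dic P) ^ n = ⟨n • a, false⟩ := by
  induction n with
  | zero => rw [pow_zero, zero_nsmul, Dic.one_def]
  | succ n ih => rw [pow_succ, ih, Dic.mul_f, succ_nsmul]

theorem pow_four {P : Type} [AddCommGroup P] (a : AA P) :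
    (⟨a, true⟩ : Dic P) ^ 4 = 1 := by
  have h : (⟨a, true⟩ : Dic P) ^ 2 = ⟨cA, false⟩ := by
    rw [pow_two, Dic.mul_tt, sub_self, zero_add]
  rw [show 4 = 2 * 2 by norm_num, pow_mul, h, pow_two, Dic.mul_f, cA_add, Dic.one_def]

variable {p q : ℕ} [hp : Fact p.Prime] [hq : Fact q.Prime]

theorem exists_order_p : ∃ x : Dic (Quasi p), orderOf x = p := by
  refine ⟨⟨(⟨_, gen_mem 1⟩, 0), false⟩, ?_⟩
  have h1 : addOrderOf (⟨_, gen_mem 1⟩ : Quasi p) = p := (gen_order (p := p) 1).trans (pow_one p)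
  have h2 : p • (⟨_, gen_mem 1⟩ : Quasi p) = 0 := by
    have := addOrderOf_nsmul_eq_zero (⟨_, gen_mem 1⟩ : Quasi p)
    rwa [h1] at this
  refine orderOf_eq_prime ?_ ?_
  · rw [pow_f, Prod.smul_mk, h2, nsmul_zero]
    rfl
  · intro h
    have h3 := congrArg Dic.a h
    have h4 : (⟨_, gen_mem 1⟩ : Quasi p) = 0 := congrArg Prod.fst h3
    rw [h4, addOrderOf_zero] at h1
    exact hp.out.one_lt.ne h1

theorem eq_of_iso (hp2 : p ≠ 2) (h : Nonempty (Dic (Quasi p) ≃* Dic (Quasi q))) : p = q := by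
  obtain ⟨φ⟩ := h
  obtain ⟨x, hx⟩ := exists_order_p (p := p)
  have hy : orderOf (φ x) = p := by rw [MulEquiv.orderOf_eq, hx]
  have h2 : ¬ p ∣ 2 := fun hd => hp2 ((Nat.prime_dvd_prime_iff_eq hp.out Nat.prime_two).1 hd)
  generalize φ x = y at hy
  obtain ⟨⟨a, ε⟩, i⟩ := y
  cases i with
  | true =>
    exfalso
    have h4 := orderOf_dvd_of_pow_eq_one (pow_four ((a, ε) : AA (Quasi q)))
    rw [hy, show 4 = 2 * 2 by norm_num] at h4
    rcases (Nat.Prime.dvd_mul hp.out).1 h4 with h5 | h5 <;> exact h2 h5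
  | false =>
    obtain ⟨n, hn⟩ := a.2
    have hn' : q ^ n • a = 0 := Subtype.ext hn
    have h4 : (⟨(a, ε), false⟩ : Dic (Quasi q)) ^ (q ^ n * 2) = 1 := by
      rw [pow_f, Prod.smul_mk, mul_comm, mul_nsmul', mul_comm 2, mul_nsmul', hn', nsmul_zero]
      have h6 : ∀ δ : ZMod 2, (2 : ℕ) • δ = 0 := by decide
      have h5 : (2 : ℕ) • ε = 0 := h6 ε
      rw [h5, nsmul_zero]
      rfl
    have h5 := orderOf_dvd_of_pow_eq_one h4
    rw [hy] at h5
    rcases (Nat.Prime.dvd_mul hp.out).1 h5 with h6 | h6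
    · exact (Nat.prime_dvd_prime_iff_eq hp.out hq.out).1 (hp.out.dvd_of_dvd_pow h6)
    · exact absurd h6 h2

theorem infinite_dic {P : Type} [AddCommGroup P] [Pruf P] : Infinite (Dic P) := by
  have := Pruf.inf (P := P)
  exact Infinite.of_injective (fun a : P => (⟨(a, 0), false⟩ : Dic P)) (fun a b h => by
    have h1 := congrArg Dic.a h
    exact congrArg Prod.fst h1)

theorem countable_dic {P : Type} [AddCommGroup P] [Pruf P] : Countable (Dic P) := by
  have : Countable P := Pruf.cnt
  exact Function.Injective.countable (f := Dic.equiv) Dic.equiv.injective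

end Pool.Agent.BG.PP
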